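import Mathlib.AlgebraicGeometry.Morphisms.Smooth
import Mathlib.AlgebraicGeometry.Morphisms.Separated
import Mathlib.FieldTheory.RatFunc.Basic
import Mathlib.FieldTheory.IntermediateField.Adjoin.Basic
import Mathlib.RingTheory.AdjoinRoot
import Mathlib.Data.Complex.Basic

/-!
# Motivic cohomology of fields: definitions
-/

set_option autoImplicit false

open CategoryTheory AlgebraicGeometry

universe v

namespace Pool.Agent.X308.B

/-- The data of a bigraded cohomology theory of schemes: groups `H X i n` (for the motivic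
cohomology with rational coefficients: `H^i(X, ℚ(n))`) and pull-back maps. -/
structure MotivicData where
  /-- the group `H^i(X, ℚ(n))` -/
  H : Scheme.{0} → ℤ → ℤ → Type v
  [group : ∀ X i n, AddCommGroup (H X i n)]
  /-- the pull-back maps -/
  map : ∀ {X Y : Scheme.{0}}, (X ⟶ Y) → ∀ i n : ℤ, H Y i n →+ H X i n

attribute [instance] MotivicData.group

variable (M : MotivicData.{v})

/-- `H^i(R, ℚ(n))` for a commutative ring `R`. -/
abbrev MotivicData.Ring (R : Type) [CommRing R] (i n : ℤ) : Type v :=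
  M.H (Spec (CommRingCat.of R)) i n

/-- The map `H^i(R, ℚ(n)) → H^i(S, ℚ(n))` induced by a homomorphism `R → S`. -/
noncomputable def MotivicData.pull {R S : Type} [CommRing R] [CommRing S] (φ : R →+* S)
    (i n : ℤ) : M.Ring R i n →+ M.Ring S i n :=
  M.map (Spec.map (CommRingCat.ofHom φ)) i n

/-- `H^i(X, ℚ(n)) = 0`. -/
def MotivicData.Vanishes (X : Scheme.{0}) (i n : ℤ) : Prop := ∀ a : M.H X i n, a = 0

/-- The pull-back maps are functorial. -/
structure IsFunctorial : Prop where
  map_id : ∀ (X : Scheme.{0}) (i n : ℤ) (a : M.H X i n), M.map (𝟙 X) i n a = a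
  map_comp : ∀ (X Y Z : Scheme.{0}) (f : X ⟶ Y) (g : Y ⟶ Z) (i n : ℤ) (a : M.H Z i n),
    M.map (f ≫ g) i n a = M.map f i n (M.map g i n a)

/-- The maps `H^i(F, ℚ(n)) → H^i(L, ℚ(n))` induced by homomorphisms of fields are injective. -/
def InjectiveOnFields : Prop :=
  ∀ (F L : Type) [Field F] [Field L] (φ : F →+* L) (i n : ℤ), Function.Injective (M.pull φ i n)

/-- The exact sequence
`0 → H^(i+1)(F, ℚ(n+1)) → H^(i+1)(F(t), ℚ(n+1)) → ⊕_p H^i(F[t]/(p), ℚ(n)) → 0` of Milnor type, the
sum over the irreducible polynomials (up to units): the residue maps exist, are surjective, vanish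
on the image of `H^(i+1)(F, ℚ(n+1))`, and a class all of whose residues vanish comes from
`H^(i+1)(F, ℚ(n+1))`. -/
def MilnorSequence (F : Type) [Field F] (i n : ℤ) : Prop :=
  ∃ res : ∀ p : Polynomial F, M.Ring (RatFunc F) (i + 1) (n + 1) →+ M.Ring (AdjoinRoot p) i n,
    (∀ p, Irreducible p → Function.Surjective (res p)) ∧
    (∀ p, Irreducible p → ∀ b, res p (M.pull (algebraMap F (RatFunc F)) (i + 1) (n + 1) b) = 0) ∧
    ∀ a, (∀ p, Irreducible p → res p a = 0) →
      ∃ b, M.pull (algebraMap F (RatFunc F)) (i + 1) (n + 1) b = a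

/-- A field. -/
structure FieldObj where
  /-- the underlying type -/
  carrier : Type
  [field : Field carrier]

attribute [instance] FieldObj.field

/-- The field `k(t_1, …, t_m)` of rational functions in `m` variables. -/
noncomputable def rationalFunctions (k : FieldObj) : ℕ → FieldObj
  | 0 => k
  | m + 1 => ⟨RatFunc (rationalFunctions k m).carrier⟩

/-- `H^i(L, ℚ(n))` is generated, for a field `L`, by the images of the groups `H^i(E, ℚ(n))` for the
fields `E → L` which are finite over some field `k(t_1, …, t_m)`: every class comes from such a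
field. -/
def Continuous (k : FieldObj) (L : Type) [Field L] : Prop :=
  ∀ (i n : ℤ) (a : M.Ring L i n), ∃ (m : ℕ) (E : Type) (_ : Field E)
    (_ : Algebra (rationalFunctions k m).carrier E) (φ : E →+* L) (b : M.Ring E i n),
    FiniteDimensional (rationalFunctions k m).carrier E ∧ M.pull φ i n b = a

/-- A consequence of the coniveau spectral sequence for smooth separated schemes `X` of finite type
over `ℂ`: if `H^(i-2c)(F, ℚ(n-c)) = 0` for all `c ≥ 0` and all finitely generated extension fields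
`F` of `ℂ` then `H^i(X, ℚ(n)) = 0`. -/
def Coniveau : Prop :=
  ∀ (X : Scheme.{0}) (f : X ⟶ Spec (CommRingCat.of ℂ)), Smooth f → IsSeparated f →
    QuasiCompact f → ∀ i n : ℤ,
      (∀ (c : ℕ) (F : Type) [Field F] [Algebra ℂ F], (⊤ : IntermediateField ℂ F).FG →
        M.Vanishes (Spec (CommRingCat.of F)) (i - 2 * c) (n - c)) → M.Vanishes X i n

/-- Known properties of the motivic cohomology with rational coefficients. The last but one is the
theorem of Borel for the field `ℚ`. -/
structure KnownProperties : Prop where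
  functorial : IsFunctorial M
  injective : InjectiveOnFields M
  milnor : ∀ (F : Type) [Field F] [CharZero F] (i n : ℤ), MilnorSequence M F i n
  negative : ∀ (F : Type) [Field F] (i n : ℤ), n < 0 → M.Vanishes (Spec (CommRingCat.of F)) i n
  continuous : Continuous M ⟨ℚ⟩ ℂ
  borel : ∀ n : ℤ, 1 ≤ n → M.Vanishes (Spec (CommRingCat.of ℚ)) 0 n
  coniveau : Coniveau M

/-- A class of smooth separated schemes of finite type over `ℂ` which contains `Spec ℂ`, for example
the class of all smooth projective complex varieties. -/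
structure IsClassOfSmooth (𝒱 : ∀ X : Scheme.{0}, (X ⟶ Spec (CommRingCat.of ℂ)) → Prop) : Prop where
  smooth : ∀ X f, 𝒱 X f → Smooth f ∧ IsSeparated f ∧ QuasiCompact f
  point : 𝒱 (Spec (CommRingCat.of ℂ)) (𝟙 _)

/-- Q1 for the class `𝒱`: the groups `H^i(X, ℚ(n))` are zero for all `X` in `𝒱`, all `n` and
all `i < 0`. -/
def VanishingOn (𝒱 : ∀ X : Scheme.{0}, (X ⟶ Spec (CommRingCat.of ℂ)) → Prop) : Prop :=
  ∀ X f, 𝒱 X f → ∀ i n : ℤ, i < 0 → M.Vanishes X i n

/-- `H^i(F, ℚ(n)) = 0` for all finitely generated extension fields `F` of `ℂ`, all `n` and all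
`i < 0`. -/
def VanishingOnFields : Prop :=
  ∀ (F : Type) [Field F] [Algebra ℂ F], (⊤ : IntermediateField ℂ F).FG →
    ∀ i n : ℤ, i < 0 → M.Vanishes (Spec (CommRingCat.of F)) i n

/-- `H^(-1)(ℂ, ℚ(n)) = 0` for all `n`. -/
def VanishingAtPoint : Prop := ∀ n : ℤ, M.Vanishes (Spec (CommRingCat.of ℂ)) (-1) n

/-- The maps `H^0(ℂ, ℚ(n)) → H^0(ℂ(t), ℚ(n))` are surjective, for all `n`. -/
def ConstantClasses : Prop :=
  ∀ n : ℤ, Function.Surjective (M.pull (algebraMap ℂ (RatFunc ℂ)) 0 n)

/-- `H^0(ℚ(t_1, …, t_m), ℚ(n)) = 0` for all `m ≥ 0` and `n ≥ 1`. -/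
def VanishingForRationalFunctions : Prop :=
  ∀ (m : ℕ) (n : ℤ), 1 ≤ n →
    M.Vanishes (Spec (CommRingCat.of (rationalFunctions ⟨ℚ⟩ m).carrier)) 0 n

end Pool.Agent.X308.B
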