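import Pool.Agent.X308.B.Defs
import Mathlib.FieldTheory.IsAlgClosed.Classification
import Mathlib.FieldTheory.IsAlgClosed.AlgebraicClosure
import Mathlib.RingTheory.Localization.Cardinality
import Mathlib.Algebra.MvPolynomial.Cardinal
import Mathlib.Algebra.Polynomial.Cardinal
import Mathlib.FieldTheory.PrimitiveElement
import Mathlib.FieldTheory.RatFunc.AsPolynomial
import Mathlib.Analysis.Complex.Cardinality
import Mathlib.Analysis.Complex.Polynomial.Basic

/-!
# Motivic cohomology of fields
-/

set_option autoImplicit false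

open CategoryTheory AlgebraicGeometry Cardinal

universe v

namespace Pool.Agent.X308.B

/-! ### Fields -/

lemma mk_algebraicClosure_le (F : Type) [Field F] (h : #F ≤ 𝔠) : #(AlgebraicClosure F) ≤ 𝔠 := by
  refine (Algebra.IsAlgebraic.cardinalMk_le_max F (AlgebraicClosure F)).trans ?_
  exact max_le h aleph0_le_continuum

/-- A field of characteristic zero and cardinality at most that of the continuum embeds into the
complex numbers. -/
theorem exists_hom (F : Type) [Field F] [CharZero F] (h : #F ≤ 𝔠) : Nonempty (F →+* ℂ) := by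
  let A := MvPolynomial ℂ F
  let B := FractionRing A
  let E := AlgebraicClosure B
  have hA : #A = 𝔠 := by
    rw [MvPolynomial.cardinalMk_eq_max, mk_complex, max_eq_right h,
      max_eq_left aleph0_le_continuum]
  have hB : #B = 𝔠 := by
    rw [← hA]
    exact IsFractionRing.cardinalMk A B
  have hE1 : #E ≤ 𝔠 := mk_algebraicClosure_le B hB.le
  have hE2 : 𝔠 ≤ #E := by
    rw [← hB]
    exact mk_le_of_injective (algebraMap B E).injective
  have hE : #E = 𝔠 := le_antisymm hE1 hE2
  let φ : F →+* E := (algebraMap B E).comp ((algebraMap A B).comp MvPolynomial.C)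
  have : CharZero E := charZero_of_injective_ringHom φ.injective
  have h2 : ℵ₀ < #E := by
    rw [hE]
    exact aleph0_lt_continuum
  have h3 : Nonempty (E ≃ ℂ) := by
    rw [← Cardinal.eq, hE, mk_complex]
  obtain ⟨e⟩ := IsAlgClosed.ringEquiv_of_equiv_of_charZero h2 h3
  exact ⟨(e : E →+* ℂ).comp φ⟩

lemma mk_ratFunc_le (F : Type) [Field F] (h : #F ≤ 𝔠) : #(RatFunc F) ≤ 𝔠 := by
  have h1 : #(RatFunc F) = #(Polynomial F) := IsFractionRing.cardinalMk (Polynomial F) (RatFunc F)
  rw [h1]
  exact Polynomial.cardinalMk_le_max.trans (max_le h aleph0_le_continuum)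

lemma charZero_ratFunc (F : Type) [Field F] [CharZero F] : CharZero (RatFunc F) :=
  charZero_of_injective_algebraMap (algebraMap F (RatFunc F)).injective

lemma mk_adjoinRoot_le (F : Type) [Field F] (h : #F ≤ 𝔠) (p : Polynomial F) :
    #(AdjoinRoot p) ≤ 𝔠 :=
  (mk_le_of_surjective AdjoinRoot.mk_surjective).trans
    (Polynomial.cardinalMk_le_max.trans (max_le h aleph0_le_continuum))

lemma mk_fg_le (F : Type) [Field F] [Algebra ℂ F] (h : (⊤ : IntermediateField ℂ F).FG) :
    #F ≤ 𝔠 := by
  obtain ⟨s, hs⟩ := h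
  have h1 := IntermediateField.cardinalMk_adjoin_le ℂ (s : Set F)
  have h2 : #(IntermediateField.adjoin ℂ (s : Set F)) = #F := by
    rw [hs]
    exact Cardinal.mk_congr (IntermediateField.topEquiv (F := ℂ) (E := F)).toEquiv
  rw [h2, mk_complex] at h1
  refine h1.trans (max_le (max_le le_rfl ?_) aleph0_le_continuum)
  have : #(s : Set F) < ℵ₀ := by
    rw [Cardinal.lt_aleph0_iff_finite]
    exact s.finite_toSet
  exact this.le.trans aleph0_le_continuum

lemma ratField_props (m : ℕ) : #(rationalFunctions ⟨ℚ⟩ m).carrier ≤ 𝔠 ∧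
    CharZero (rationalFunctions ⟨ℚ⟩ m).carrier := by
  induction m with
  | zero =>
    refine ⟨?_, ?_⟩
    · change #ℚ ≤ 𝔠
      exact (mk_le_aleph0 (α := ℚ)).trans aleph0_le_continuum
    · change CharZero ℚ
      infer_instance
  | succ m ih =>
    obtain ⟨h1, h2⟩ := ih
    exact ⟨mk_ratFunc_le _ h1, charZero_ratFunc _⟩

/-! ### Cohomology -/

variable {M : MotivicData.{v}}

lemma pull_id (hM : IsFunctorial M) {R : Type} [CommRing R] (i n : ℤ) (a : M.Ring R i n) :
    M.pull (RingHom.id R) i n a = a := by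
  have h1 : Spec.map (CommRingCat.ofHom (RingHom.id R)) = 𝟙 (Spec (CommRingCat.of R)) := by
    rw [CommRingCat.ofHom_id]
    exact Spec.map_id _
  rw [MotivicData.pull, h1]
  exact hM.map_id _ i n a

lemma pull_comp (hM : IsFunctorial M) {R S T : Type} [CommRing R] [CommRing S] [CommRing T]
    (φ : R →+* S) (ψ : S →+* T) (i n : ℤ) (a : M.Ring R i n) :
    M.pull (ψ.comp φ) i n a = M.pull ψ i n (M.pull φ i n a) := by
  have h1 : Spec.map (CommRingCat.ofHom (ψ.comp φ)) =
      Spec.map (CommRingCat.ofHom ψ) ≫ Spec.map (CommRingCat.ofHom φ) := by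
    rw [CommRingCat.ofHom_comp]
    exact Spec.map_comp _ _
  rw [MotivicData.pull, h1]
  exact hM.map_comp _ _ _ _ _ i n a

lemma vanishes_of_hom (h : InjectiveOnFields M) {F L : Type} [Field F] [Field L] (φ : F →+* L)
    {i n : ℤ} (hL : M.Vanishes (Spec (CommRingCat.of L)) i n) :
    M.Vanishes (Spec (CommRingCat.of F)) i n := by
  intro a
  apply h F L φ i n
  rw [map_zero]
  exact hL _

lemma vanishes_of_equiv (hM : IsFunctorial M) {R S : Type} [CommRing R] [CommRing S] (e : R ≃+* S)
    {i n : ℤ} (hS : M.Vanishes (Spec (CommRingCat.of S)) i n) :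
    M.Vanishes (Spec (CommRingCat.of R)) i n := by
  intro a
  have h1 : M.pull (e.symm : S →+* R) i n (M.pull (e : R →+* S) i n a) = a := by
    rw [← pull_comp hM, RingEquiv.symm_comp, pull_id hM]
  have h2 : M.pull (e : R →+* S) i n a = 0 := hS _
  rw [← h1, h2, map_zero]

/-- Vanishing in degree `-1` for `Spec ℂ` implies vanishing in degree `-1` for small fields. -/
lemma small_vanishes (hK : KnownProperties M) (h : VanishingAtPoint M) (F : Type) [Field F]
    [CharZero F] (hF : #F ≤ 𝔠) (n : ℤ) : M.Vanishes (Spec (CommRingCat.of F)) (-1) n := by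
  obtain ⟨φ⟩ := exists_hom F hF
  exact vanishes_of_hom hK.injective φ (h n)

/-- The vanishing in degree `i + 1` and weight `n + 1` for `F(t)` implies the vanishing in degree
`i` and weight `n` for `F`. -/
lemma vanishes_of_ratFunc (hK : KnownProperties M) (F : Type) [Field F] [CharZero F] {i n : ℤ}
    (h : M.Vanishes (Spec (CommRingCat.of (RatFunc F))) (i + 1) (n + 1)) :
    M.Vanishes (Spec (CommRingCat.of F)) i n := by
  obtain ⟨res, h1, -, -⟩ := hK.milnor F i n
  have hX : Irreducible (Polynomial.X : Polynomial F) := Polynomial.irreducible_X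
  have : Fact (Irreducible (Polynomial.X : Polynomial F)) := ⟨hX⟩
  refine vanishes_of_hom hK.injective (algebraMap F (AdjoinRoot (Polynomial.X : Polynomial F))) ?_
  intro a
  obtain ⟨b, rfl⟩ := h1 _ hX a
  have : b = 0 := h b
  rw [this, map_zero]

/-- All negative degrees. -/
lemma small_vanishes_all (hK : KnownProperties M) (h : VanishingAtPoint M) (m : ℕ) :
    ∀ (F : Type) [Field F] [CharZero F], #F ≤ 𝔠 → ∀ n : ℤ,
      M.Vanishes (Spec (CommRingCat.of F)) (-1 - m) n := by
  induction m with
  | zero =>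
    intro F _ _ hF n
    have := small_vanishes hK h F hF n
    rwa [Nat.cast_zero, sub_zero]
  | succ m ih =>
    intro F _ _ hF n
    apply vanishes_of_ratFunc hK F
    have := charZero_ratFunc F
    have h1 := ih (RatFunc F) (mk_ratFunc_le F hF) (n + 1)
    have e : (-1 - ((m + 1 : ℕ) : ℤ) + 1) = -1 - m := by
      push_cast
      ring
    rw [e]
    exact h1

/-- (3) implies (2). -/
theorem fields_of_point (hK : KnownProperties M) (h : VanishingAtPoint M) :
    VanishingOnFields M := by
  intro F _ _ hF i n hi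
  have : CharZero F := charZero_of_injective_algebraMap (algebraMap ℂ F).injective
  obtain ⟨m, hm⟩ : ∃ m : ℕ, i = -1 - m := ⟨(-1 - i).toNat, by
    rw [Int.toNat_of_nonneg (by omega)]
    ring⟩
  rw [hm]
  exact small_vanishes_all hK h m F (mk_fg_le F hF) n

/-- (2) implies (1). -/
theorem class_of_fields (hK : KnownProperties M) (h : VanishingOnFields M)
    {𝒱 : ∀ X : Scheme.{0}, (X ⟶ Spec (CommRingCat.of ℂ)) → Prop} (h𝒱 : IsClassOfSmooth 𝒱) :
    VanishingOn M 𝒱 := by
  intro X f hX i n hi
  obtain ⟨h1, h2, h3⟩ := h𝒱.smooth X f hX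
  refine hK.coniveau X f h1 h2 h3 i n fun c F _ _ hF => ?_
  exact h F hF _ _ (by omega)

/-- (1) implies (3). -/
theorem point_of_class {𝒱 : ∀ X : Scheme.{0}, (X ⟶ Spec (CommRingCat.of ℂ)) → Prop}
    (h𝒱 : IsClassOfSmooth 𝒱) (h : VanishingOn M 𝒱) : VanishingAtPoint M :=
  fun n => h _ _ h𝒱.point (-1) n (by norm_num)

/-- The constant classes, if the residues vanish. -/
lemma surjective_of_small (hK : KnownProperties M) (h : VanishingAtPoint M) (F : Type) [Field F]
    [CharZero F] (hF : #F ≤ 𝔠) (n : ℤ) :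
    Function.Surjective (M.pull (algebraMap F (RatFunc F)) 0 n) := by
  obtain ⟨n, rfl⟩ : ∃ n' : ℤ, n = n' + 1 := ⟨n - 1, by ring⟩
  obtain ⟨res, -, -, h3⟩ := hK.milnor F (-1) n
  intro a
  refine h3 a fun p hp => ?_
  have : Fact (Irreducible p) := ⟨hp⟩
  have : CharZero (AdjoinRoot p) :=
    charZero_of_injective_algebraMap (algebraMap F (AdjoinRoot p)).injective
  exact small_vanishes hK h (AdjoinRoot p) (mk_adjoinRoot_le F hF p) n _

/-- (3) implies (4). -/
theorem constant_of_point (hK : KnownProperties M) (h : VanishingAtPoint M) :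
    ConstantClasses M :=
  fun n => surjective_of_small hK h ℂ mk_complex.le n

/-- (4) implies (3). -/
theorem point_of_constant (hK : KnownProperties M) (h : ConstantClasses M) :
    VanishingAtPoint M := by
  intro n
  obtain ⟨res, h1, h2, -⟩ := hK.milnor ℂ (-1) n
  have hX : Irreducible (Polynomial.X : Polynomial ℂ) := Polynomial.irreducible_X
  have : Fact (Irreducible (Polynomial.X : Polynomial ℂ)) := ⟨hX⟩
  refine vanishes_of_hom hK.injective (algebraMap ℂ (AdjoinRoot (Polynomial.X : Polynomial ℂ))) ?_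
  intro a
  obtain ⟨b, rfl⟩ := h1 _ hX a
  obtain ⟨c, hc⟩ := h (n + 1) b
  have h3 := h2 _ hX c
  have h4 : M.pull (algebraMap ℂ (RatFunc ℂ)) (-1 + 1) (n + 1) c = b := hc
  rwa [h4] at h3

/-- (3) implies (5). -/
theorem rational_of_point (hK : KnownProperties M) (h : VanishingAtPoint M) :
    VanishingForRationalFunctions M := by
  intro m
  induction m with
  | zero => exact hK.borel
  | succ m ih =>
    intro n hn a
    obtain ⟨h1, h2⟩ := ratField_props m
    obtain ⟨b, hb⟩ := surjective_of_small hK h (rationalFunctions ⟨ℚ⟩ m).carrier h1 n a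
    rw [← hb, ih n hn b, map_zero]
    rfl

/-- (5) implies (3). -/
theorem point_of_rational (hK : KnownProperties M) (h : VanishingForRationalFunctions M) :
    VanishingAtPoint M := by
  intro n a
  rcases lt_or_ge n 0 with hn | hn
  · exact hK.negative ℂ (-1) n hn a
  · obtain ⟨m, E, _, _, φ, b, hE, rfl⟩ := hK.continuous (-1) n a
    obtain ⟨-, h2⟩ := ratField_props m
    suffices hb : b = 0 by rw [hb, map_zero]
    obtain ⟨θ, hθ⟩ := Field.exists_primitive_element (rationalFunctions ⟨ℚ⟩ m).carrier E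
    have hint : IsIntegral (rationalFunctions ⟨ℚ⟩ m).carrier θ := IsIntegral.of_finite _ θ
    have e1 := IntermediateField.adjoinRootEquivAdjoin (rationalFunctions ⟨ℚ⟩ m).carrier hint
    rw [hθ] at e1
    have e : E ≃+* AdjoinRoot (minpoly (rationalFunctions ⟨ℚ⟩ m).carrier θ) :=
      (e1.trans IntermediateField.topEquiv).symm.toRingEquiv
    refine vanishes_of_equiv hK.functorial e ?_ b
    intro c
    obtain ⟨res, h3, -, -⟩ := hK.milnor (rationalFunctions ⟨ℚ⟩ m).carrier (-1) n
    obtain ⟨d, rfl⟩ := h3 _ (minpoly.irreducible hint) c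
    have h4 : d = 0 := h (m + 1) (n + 1) (by omega) d
    rw [h4, map_zero]

/-- **The Beilinson-Soulé vanishing conjecture and rational function fields.** -/
theorem vanishing_iff (hK : KnownProperties M)
    {𝒱 : ∀ X : Scheme.{0}, (X ⟶ Spec (CommRingCat.of ℂ)) → Prop} (h𝒱 : IsClassOfSmooth 𝒱) :
    List.TFAE [VanishingOn M 𝒱, VanishingOnFields M, VanishingAtPoint M, ConstantClasses M,
      VanishingForRationalFunctions M] := by
  tfae_have 1 → 3 := point_of_class h𝒱
  tfae_have 3 → 2 := fields_of_point hK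
  tfae_have 2 → 1 := fun h => class_of_fields hK h h𝒱
  tfae_have 3 → 4 := constant_of_point hK
  tfae_have 4 → 3 := point_of_constant hK
  tfae_have 3 → 5 := rational_of_point hK
  tfae_have 5 → 3 := point_of_rational hK
  tfae_finish

end Pool.Agent.X308.B
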